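import Pool.Agent.Helper46.PHU.UniqOf
import Pool.Agent.Helper79.PHU.Pos

/-!
# PHU-15: uniqueness of the critical chords
-/

set_option autoImplicit false

open MeasureTheory Set

namespace Pool.Agent.Helper46.PHU

open Pool.Agent.Helper27.PHU Pool.Agent.Helper37.PH Pool.Agent.Helper61.PH

theorem good_unique {K : Set (ℝ × ℝ)} (hK : SBody K) {θ : ℝ} {z z' : Fin 10 → ℝ × ℝ}
    (h : Good K θ z) (h' : Good K θ z') :
    z 0 = z' 0 ∧ z 1 = z' 1 ∧ z 2 = z' 2 ∧ z 3 = z' 3 ∧ z 4 = z' 4 ∧ z 5 = z' 5 :=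
  good_unique_of hK (fun _ hz => Pool.Agent.Helper79.PHU.good_pos hK hz) h h'

end Pool.Agent.Helper46.PHU
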