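import Pool.Agent.Helper27.PHU.Defs

/-!
# PHU-15: uniqueness of the critical chords (core, from `good_pos`)
-/

set_option autoImplicit false

open MeasureTheory Set

namespace Pool.Agent.Helper46.PHU

open Pool.Agent.Helper27.PHU Pool.Agent.Helper37.PH Pool.Agent.Helper61.PH

/-- the statement of `good_pos` -/
def GoodPos (K : Set (ℝ × ℝ)) (θ : ℝ) : Prop :=
  ∀ z : Fin 10 → ℝ × ℝ, Good K θ z →
    0 < dt (uu θ) (z 3 - z 0) ∧ dt (z 6) (uu θ) < 0 ∧ dt (z 7) (uu θ) < 0 ∧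
      0 < dt (z 8) (uu θ) ∧ 0 < dt (z 9) (uu θ) ∧ 0 < dt (nn θ) (z 4 - z 5) ∧
      0 < hb θ z ∧ hb θ z < 1 / 2

theorem dt_sub (a p q : ℝ × ℝ) : dt a (p - q) = dt a p - dt a q := by
  simp [dt]; ring

theorem dt_add (a p q : ℝ × ℝ) : dt a (p + q) = dt a p + dt a q := by
  simp [dt]; ring

theorem dt_smul (a : ℝ × ℝ) (s : ℝ) (p : ℝ × ℝ) : dt a (s • p) = s * dt a p := by
  simp [dt]; ring

theorem dt_comm' (p q : ℝ × ℝ) : dt p q = dt q p := by
  simp [dt]; ring

theorem dt_uu (θ : ℝ) : dt (uu θ) (uu θ) = 1 := by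
  simp only [dt, uu]
  have := Real.cos_sq_add_sin_sq θ
  nlinarith

theorem dt_nn (θ : ℝ) : dt (nn θ) (nn θ) = 1 := by
  simp only [dt, nn]
  have := Real.cos_sq_add_sin_sq θ
  nlinarith

theorem dt_nn_uu (θ : ℝ) : dt (nn θ) (uu θ) = 0 := by
  simp only [dt, nn, uu]
  ring

/-- a vector orthogonal to `n` is a multiple of `u` -/
theorem eq_smul_uu {θ : ℝ} {p : ℝ × ℝ} (h : dt (nn θ) p = 0) :
    p = (dt (uu θ) p) • uu θ := by
  have h1 := Real.cos_sq_add_sin_sq θ
  simp only [dt, nn] at h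
  apply Prod.ext
  · simp only [dt, uu, Prod.smul_fst, smul_eq_mul]
    linear_combination (-p.1) * h1 - Real.sin θ * h
  · simp only [dt, uu, Prod.smul_snd, smul_eq_mul]
    linear_combination (-p.2) * h1 + Real.cos θ * h

theorem interior_step {K : Set (ℝ × ℝ)} {X : ℝ × ℝ} (hX : X ∈ interior K) (v : ℝ × ℝ) :
    ∃ ε : ℝ, 0 < ε ∧ X + ε • v ∈ K ∧ X - ε • v ∈ K := by
  have hcont : Continuous fun s : ℝ => X + s • v := by fun_prop
  have hopen : IsOpen ((fun s : ℝ => X + s • v) ⁻¹' interior K) :=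
    isOpen_interior.preimage hcont
  have h0 : (0 : ℝ) ∈ (fun s : ℝ => X + s • v) ⁻¹' interior K := by
    simpa using hX
  obtain ⟨δ, hδ, hb⟩ := Metric.isOpen_iff.1 hopen 0 h0
  refine ⟨δ / 2, by linarith, ?_, ?_⟩
  · have : (δ / 2 : ℝ) ∈ Metric.ball (0 : ℝ) δ := by
      simp only [Metric.mem_ball, dist_zero_right, Real.norm_eq_abs, abs_of_pos (half_pos hδ)]
      linarith
    exact interior_subset (hb this)
  · have : (-(δ / 2) : ℝ) ∈ Metric.ball (0 : ℝ) δ := by
      simp only [Metric.mem_ball, dist_zero_right, Real.norm_eq_abs, abs_neg,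
        abs_of_pos (half_pos hδ)]
      linarith
    have h2 := interior_subset (hb this)
    simpa [sub_eq_add_neg] using h2

/-- points of the open segment of a strictly convex body are interior -/
theorem segment_interior {K : Set (ℝ × ℝ)} (hK : SBody K) {A B : ℝ × ℝ} (hA : A ∈ K)
    (hB : B ∈ K) (hAB : A ≠ B) {w : ℝ} (hw0 : 0 < w) (hw1 : w < 1) :
    (1 - w) • A + w • B ∈ interior K := by
  have hm := hK.strict A hA B hB hAB
  have hconv : Convex ℝ K := hK.body.convex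
  rcases le_total w (1 / 2) with hw | hw
  · have h1 := hconv.combo_interior_self_mem_interior hm hA (a := 2 * w) (b := 1 - 2 * w)
      (by linarith) (by linarith) (by ring)
    convert h1 using 1
    module
  · have h1 := hconv.combo_interior_self_mem_interior hm hB (a := 2 * (1 - w))
      (b := 2 * w - 1) (by linarith) (by linarith) (by ring)
    convert h1 using 1
    module

variable {K : Set (ℝ × ℝ)} {θ : ℝ}

/-- maximisers of a nonzero functional are unique -/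
theorem max_unique (hK : SBody K) {a : ℝ × ℝ} (ha : dt a a = 1) {p q : ℝ × ℝ} (hp : p ∈ K)
    (hq : q ∈ K) (h1 : ∀ r ∈ K, dt a r ≤ dt a p) (h2 : ∀ r ∈ K, dt a r ≤ dt a q) : p = q := by
  by_contra hne
  have hm := hK.strict p hp q hq hne
  obtain ⟨ε, hε, hin, -⟩ := interior_step hm a
  have := h1 _ hin
  have e := le_antisymm (h1 q hq) (h2 p hp)
  rw [dt_add, dt_smul, dt_smul, dt_add, ha, e] at this
  linarith

theorem dt_neg_left (a p : ℝ × ℝ) : dt (-a) p = - dt a p := by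
  simp [dt]; ring

theorem top_unique (hK : SBody K) {z z' : Fin 10 → ℝ × ℝ} (h : Good K θ z)
    (h' : Good K θ z') : z 4 = z' 4 :=
  max_unique hK (dt_nn θ) h.m4 h'.m4 h.top h'.top

theorem bot_unique (hK : SBody K) {z z' : Fin 10 → ℝ × ℝ} (h : Good K θ z)
    (h' : Good K θ z') : z 5 = z' 5 := by
  have hn : dt (-nn θ) (-nn θ) = 1 := by
    rw [← dt_nn θ]; simp [dt]
  refine max_unique hK hn h.m5 h'.m5 ?_ ?_
  · intro r hr
    rw [dt_neg_left, dt_neg_left]
    exact neg_le_neg (h.bot r hr)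
  · intro r hr
    rw [dt_neg_left, dt_neg_left]
    exact neg_le_neg (h'.bot r hr)

/-- a point of `K` at the level of a point with a support normal pointing to the left lies to
its right -/
theorem left_of {a p q : ℝ × ℝ} (hs : dt a (q - p) ≤ 0) (ha : dt a (uu θ) < 0)
    (hl : dt (nn θ) q = dt (nn θ) p) : dt (uu θ) p ≤ dt (uu θ) q := by
  have h0 : dt (nn θ) (q - p) = 0 := by rw [dt_sub, hl, sub_self]
  rw [eq_smul_uu h0, dt_smul] at hs
  have h1 : 0 ≤ dt (uu θ) (q - p) := by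
    by_contra hcon
    push Not at hcon
    have := mul_pos_of_neg_of_neg hcon ha
    linarith
  rw [dt_sub] at h1
  linarith

theorem right_of {a p q : ℝ × ℝ} (hs : dt a (q - p) ≤ 0) (ha : 0 < dt a (uu θ))
    (hl : dt (nn θ) q = dt (nn θ) p) : dt (uu θ) q ≤ dt (uu θ) p := by
  have h0 : dt (nn θ) (q - p) = 0 := by rw [dt_sub, hl, sub_self]
  rw [eq_smul_uu h0, dt_smul] at hs
  have h1 : dt (uu θ) (q - p) ≤ 0 := by
    by_contra hcon
    push Not at hcon
    have := mul_pos hcon ha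
    linarith
  rw [dt_sub] at h1
  linarith

theorem eq_of_coords {p q : ℝ × ℝ} (h1 : dt (uu θ) p = dt (uu θ) q)
    (h2 : dt (nn θ) p = dt (nn θ) q) : p = q := by
  have h0 : dt (nn θ) (p - q) = 0 := by rw [dt_sub, h2, sub_self]
  have h3 := eq_smul_uu h0
  rw [dt_sub, h1, sub_self, zero_smul, sub_eq_zero] at h3
  exact h3

/-- a level strictly between the two chords has a longer chord -/
theorem middle (hK : SBody K) {z : Fin 10 → ℝ × ℝ} (h : Good K θ z)
    {t : ℝ} (h0 : dt (nn θ) (z 0) < t) (h1 : t < dt (nn θ) (z 1)) :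
    ∃ P Q : ℝ × ℝ, P ∈ K ∧ Q ∈ K ∧ dt (nn θ) P = t ∧ dt (nn θ) Q = t ∧
      dt (uu θ) (z 3) - dt (uu θ) (z 0) < dt (uu θ) Q - dt (uu θ) P := by
  have hAB : z 0 ≠ z 1 := by
    intro he
    rw [he] at h0
    linarith
  have l3 : dt (nn θ) (z 3) = dt (nn θ) (z 0) := by
    have := h.lev1
    rw [dt_sub] at this
    linarith
  have l2 : dt (nn θ) (z 2) = dt (nn θ) (z 1) := by
    have := h.lev2
    rw [dt_sub] at this
    linarith
  have hDC : z 3 ≠ z 2 := by
    intro he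
    rw [he, l2] at l3
    linarith
  have hlen := h.len
  rw [dt_sub, dt_sub] at hlen
  set D := dt (nn θ) (z 1) - dt (nn θ) (z 0) with hD
  have hDpos : 0 < D := by linarith
  set w := (t - dt (nn θ) (z 0)) / D with hw
  have hw0 : 0 < w := div_pos (by linarith) hDpos
  have hw1 : w < 1 := by
    rw [hw, div_lt_one hDpos]
    linarith
  have hwD : w * D = t - dt (nn θ) (z 0) := div_mul_cancel₀ _ hDpos.ne'
  have i1 := segment_interior hK h.m0 h.m1 hAB hw0 hw1
  have i2 := segment_interior hK h.m3 h.m2 hDC hw0 hw1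
  obtain ⟨ε, hε, -, m1⟩ := interior_step i1 (uu θ)
  obtain ⟨ε', hε', m2, -⟩ := interior_step i2 (uu θ)
  refine ⟨_, _, m1, m2, ?_, ?_, ?_⟩
  · rw [dt_sub, dt_add, dt_smul, dt_smul, dt_smul, dt_nn_uu]
    linear_combination hwD + w * hD
  · rw [dt_add, dt_add, dt_smul, dt_smul, dt_smul, dt_nn_uu, l3, l2]
    linear_combination hwD + w * hD
  · simp only [dt_sub, dt_add, dt_smul, dt_uu]
    have e : dt (uu θ) (z 2) - dt (uu θ) (z 1) = dt (uu θ) (z 3) - dt (uu θ) (z 0) := by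
      linarith
    nlinarith

theorem hb_not_lt (hK : SBody K) (hP : GoodPos K θ) {z z' : Fin 10 → ℝ × ℝ}
    (h : Good K θ z) (h' : Good K θ z') : ¬ hb θ z < hb θ z' := by
  intro hlt
  obtain ⟨p1, p2, p3, p4, p5, p6, p7, p8⟩ := hP z h
  obtain ⟨q1, q2, q3, q4, q5, q6, q7, q8⟩ := hP z' h'
  have e4 := top_unique hK h h'
  have e5 := bot_unique hK h h'
  unfold hb at hlt p7 p8 q7 q8
  rw [← e4, ← e5] at hlt q7 q8
  set H := dt (nn θ) (z 4 - z 5) with hH
  have a1 : dt (nn θ) (z 0 - z 5) < dt (nn θ) (z' 0 - z 5) := by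
    rwa [div_lt_div_iff_of_pos_right p6] at hlt
  have a2 : dt (nn θ) (z' 0 - z 5) < H / 2 := by
    rw [div_lt_iff₀ p6] at q8
    linarith
  have a3 : 0 < dt (nn θ) (z 0 - z 5) := by
    rw [lt_div_iff₀ p6] at p7
    linarith
  rw [dt_sub, dt_sub] at a1
  rw [dt_sub] at a2 a3
  have b1 := h.half
  have b2 := h'.half
  rw [← e4, ← e5, ← hH, dt_sub] at b2
  rw [← hH, dt_sub] at b1
  have l3 : dt (nn θ) (z 3) = dt (nn θ) (z 0) := by
    have := h.lev1
    rw [dt_sub] at this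
    linarith
  have l2 : dt (nn θ) (z 2) = dt (nn θ) (z 1) := by
    have := h.lev2
    rw [dt_sub] at this
    linarith
  have l3' : dt (nn θ) (z' 3) = dt (nn θ) (z' 0) := by
    have := h'.lev1
    rw [dt_sub] at this
    linarith
  have l2' : dt (nn θ) (z' 2) = dt (nn θ) (z' 1) := by
    have := h'.lev2
    rw [dt_sub] at this
    linarith
  have hlen := h.len
  rw [dt_sub, dt_sub] at hlen
  -- first comparison
  obtain ⟨P, Q, hPK, hQK, lP, lQ, hPQ⟩ := middle hK h (t := dt (nn θ) (z' 0))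
    (by linarith) (by linarith)
  have c1 : dt (uu θ) (z' 0) ≤ dt (uu θ) P := left_of (h'.s6 P hPK) q2 lP
  have c2 : dt (uu θ) Q ≤ dt (uu θ) (z' 3) := right_of (h'.s9 Q hQK) q5 (by rw [lQ, l3'])
  -- second comparison
  obtain ⟨P', Q', hPK', hQK', lP', lQ', hPQ'⟩ := middle hK h' (t := dt (nn θ) (z 1))
    (by linarith) (by linarith)
  have c3 : dt (uu θ) (z 1) ≤ dt (uu θ) P' := left_of (h.s7 P' hPK') p3 lP'
  have c4 : dt (uu θ) Q' ≤ dt (uu θ) (z 2) := right_of (h.s8 Q' hQK') p4 (by rw [lQ', l2])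
  linarith

/-- PHU-15 from `good_pos`. -/
theorem good_unique_of (hK : SBody K) (hP : GoodPos K θ) {z z' : Fin 10 → ℝ × ℝ}
    (h : Good K θ z) (h' : Good K θ z') :
    z 0 = z' 0 ∧ z 1 = z' 1 ∧ z 2 = z' 2 ∧ z 3 = z' 3 ∧ z 4 = z' 4 ∧ z 5 = z' 5 := by
  have hbe : hb θ z = hb θ z' :=
    le_antisymm (not_lt.1 (hb_not_lt hK hP h' h)) (not_lt.1 (hb_not_lt hK hP h h'))
  obtain ⟨p1, p2, p3, p4, p5, p6, p7, p8⟩ := hP z h
  obtain ⟨q1, q2, q3, q4, q5, q6, q7, q8⟩ := hP z' h'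
  have e4 := top_unique hK h h'
  have e5 := bot_unique hK h h'
  unfold hb at hbe
  rw [← e4, ← e5, div_left_inj' p6.ne', dt_sub, dt_sub] at hbe
  have lA : dt (nn θ) (z 0) = dt (nn θ) (z' 0) := by linarith
  have b1 := h.half
  have b2 := h'.half
  rw [← e4, ← e5, dt_sub] at b2
  rw [dt_sub] at b1
  have lB : dt (nn θ) (z 1) = dt (nn θ) (z' 1) := by linarith
  have l3 : dt (nn θ) (z 3) = dt (nn θ) (z 0) := by
    have := h.lev1
    rw [dt_sub] at this
    linarith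
  have l2 : dt (nn θ) (z 2) = dt (nn θ) (z 1) := by
    have := h.lev2
    rw [dt_sub] at this
    linarith
  have l3' : dt (nn θ) (z' 3) = dt (nn θ) (z' 0) := by
    have := h'.lev1
    rw [dt_sub] at this
    linarith
  have l2' : dt (nn θ) (z' 2) = dt (nn θ) (z' 1) := by
    have := h'.lev2
    rw [dt_sub] at this
    linarith
  refine ⟨eq_of_coords (le_antisymm ?_ ?_) lA, eq_of_coords (le_antisymm ?_ ?_) lB,
    eq_of_coords (le_antisymm ?_ ?_) (by rw [l2, l2', lB]),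
    eq_of_coords (le_antisymm ?_ ?_) (by rw [l3, l3', lA]), e4, e5⟩
  · exact left_of (h.s6 _ h'.m0) p2 lA.symm
  · exact left_of (h'.s6 _ h.m0) q2 lA
  · exact left_of (h.s7 _ h'.m1) p3 lB.symm
  · exact left_of (h'.s7 _ h.m1) q3 lB
  · exact right_of (h'.s8 _ h.m2) q4 (by rw [l2, l2', lB])
  · exact right_of (h.s8 _ h'.m2) p4 (by rw [l2, l2', lB])
  · exact right_of (h'.s9 _ h.m3) q5 (by rw [l3, l3', lA])
  · exact right_of (h.s9 _ h'.m3) p5 (by rw [l3, l3', lA])

end Pool.Agent.Helper46.PHU
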